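import Pool.Agent.H46.CH.LT

/-!
# MP_64fb07_lc, board chs_modules: CD (codes exist)
-/

set_option autoImplicit false

namespace Pool.Agent.H88.CH

open Pool.Agent.H46.CH
open Pool.Agent.H8.JS (NTM Cfg Mv IsComp lang num)

open Classical in
theorem pf_CD : T_CD := by
  intro M
  have := M.finΓ
  have hf : Finite (TS M) := by
    show Finite (Pool.Agent.H8.JS.Sym M.Γ)
    infer_instance
  obtain ⟨m, ⟨e⟩⟩ := Finite.exists_equiv_fin (TS M)
  have hm : 0 < m := by
    have := (e .bl).isLt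
    omega
  refine ⟨m + 2, fun a => ((Equiv.swap (e .bl) ⟨0, hm⟩ (e a)) : Fin m).val, ⟨?_, ?_, ?_⟩⟩
  · simp
  · intro a b h
    have h1 := Fin.val_injective h
    exact e.injective ((Equiv.swap _ _).injective h1)
  · intro a
    have := (Equiv.swap (e .bl) ⟨0, hm⟩ (e a)).isLt
    show ((Equiv.swap (e .bl) ⟨0, hm⟩ (e a)) : Fin m).val + 1 < m + 2
    omega

end Pool.Agent.H88.CH
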