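import Pool.Agent.H46.CH.LT

/-!
# MP_64fb07_lc, board chs_modules: CO (the code of a tape inscription)
-/

set_option autoImplicit false

namespace Pool.Agent.H88.CH

open Pool.Agent.H46.CH
open Pool.Agent.H8.JS (NTM Cfg Mv IsComp lang num)

theorem cod_ext {M : NTM} {B : ℕ} {cd : TS M → ℕ} (h0 : cd .bl = 0) {f : ℕ → TS M} {s S : ℕ}
    (hs : ∀ i ≥ s, f i = .bl) (hS : s ≤ S) :
    ∑ i ∈ Finset.range S, cd (f i) * B ^ i = ∑ i ∈ Finset.range s, cd (f i) * B ^ i := by
  symm
  refine Finset.sum_subset (fun i hi => ?_) (fun i _ hi => ?_)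
  · rw [Finset.mem_range] at hi ⊢
    omega
  · rw [Finset.mem_range, not_lt] at hi
    rw [hs i hi, h0, zero_mul]

theorem digit {B a b r r' : ℕ} (ha : a < B) (hb : b < B) (h : a + B * r = b + B * r') :
    a = b ∧ r = r' := by
  have h1 : (a + B * r) % B = (b + B * r') % B := by rw [h]
  rw [Nat.add_mul_mod_self_left, Nat.add_mul_mod_self_left, Nat.mod_eq_of_lt ha,
    Nat.mod_eq_of_lt hb] at h1
  subst h1
  refine ⟨rfl, ?_⟩
  have h2 : B * r = B * r' := by omega
  exact Nat.eq_of_mul_eq_mul_left (by omega) h2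

theorem pf_CO : T_CO := by
  intro M B cd hC
  have h0 := hC.bl
  refine ⟨?_, ?_, ?_, ?_⟩
  · rintro f r r' ⟨s, hs, rfl⟩ ⟨s', hs', rfl⟩
    rw [← cod_ext h0 hs (le_max_left s s'), ← cod_ext h0 hs' (le_max_right s s')]
  · intro f r
    constructor
    · rintro ⟨s, hs, rfl⟩
      refine ⟨∑ i ∈ Finset.range s, cd (f (i + 1)) * B ^ i, ?_, s, fun i hi => hs _ (by omega),
        rfl⟩
      rw [← cod_ext h0 hs (Nat.le_succ s), Finset.sum_range_succ', Finset.mul_sum, add_comm]
      congr 1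
      · simp
      · refine Finset.sum_congr rfl fun i _ => ?_
        rw [pow_succ]
        ring
    · rintro ⟨r', rfl, s, hs, rfl⟩
      refine ⟨s + 1, fun i hi => ?_, ?_⟩
      · obtain ⟨j, rfl⟩ : ∃ j, i = j + 1 := ⟨i - 1, by omega⟩
        exact hs j (by omega)
      · rw [Finset.sum_range_succ', Finset.mul_sum, add_comm]
        congr 1
        · refine Finset.sum_congr rfl fun i _ => ?_
          rw [pow_succ]
          ring
        · simp
  · intro a b r r' h
    have ha := hC.lt a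
    have hb := hC.lt b
    obtain ⟨h1, h2⟩ := digit (by omega) (by omega) h
    exact ⟨hC.inj h1, h2⟩
  · intro a b r r' h
    have ha := hC.lt a
    have hb := hC.lt b
    obtain ⟨h1, h2⟩ := digit ha hb h
    exact ⟨hC.inj (by omega), h2⟩

end Pool.Agent.H88.CH
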