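import Pool.Agent.H46.CH.LT

/-!
# MP_64fb07_lc, board chs_modules: FBN (the size of the second stage)
-/

set_option autoImplicit false

namespace Pool.Agent.H88.CH

open Pool.Agent.H46.CH
open Polynomial

theorem pf_FBN : T_FBN := by
  refine ⟨?_, ?_, ?_⟩
  · intro d hd
    refine strictMono_nat_of_lt_succ fun n => ?_
    unfold fB
    have h1 : (n + 1) ^ d - 1 ≤ (n + 1 + 1) ^ d - 1 :=
      Nat.sub_le_sub_right (Nat.pow_le_pow_left (by omega) d) 1
    have h2 : d * n < d * (n + 1) := Nat.mul_lt_mul_of_pos_left (by omega) hd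
    have h3 : ((n + 1) ^ d - 1) * (2 * (d * n) + 1) ≤
        ((n + 1 + 1) ^ d - 1) * (2 * (d * (n + 1)) + 1) := Nat.mul_le_mul h1 (by omega)
    omega
  · intro d₂
    refine ⟨d₂ + 1, by omega, fun n => ?_⟩
    unfold fB
    have h1 : (n + 1) ^ d₂ ≤ (n + 1) ^ (d₂ + 1) := Nat.pow_le_pow_right (by omega) (by omega)
    have h2 : 1 ≤ (n + 1) ^ (d₂ + 1) := Nat.one_le_pow _ _ (by omega)
    have h3 : ((n + 1) ^ (d₂ + 1) - 1) * 1 ≤
        ((n + 1) ^ (d₂ + 1) - 1) * (2 * ((d₂ + 1) * n) + 1) := Nat.mul_le_mul_left _ (by omega)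
    omega
  · intro d
    refine ⟨C 2 * (((X + 1) ^ d - 1) * (2 * (C (d : ℤ) * X) + 1) +
      (2 * (1 + C (d : ℤ) * X) + 1)), fun n => ?_⟩
    have h2 : 1 ≤ (n + 1) ^ d := Nat.one_le_pow _ _ (by omega)
    unfold fB
    push_cast [Nat.cast_sub h2]
    simp

end Pool.Agent.H88.CH
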