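import Pool.Agent.H88.CHS.Base

/-!
# MP_64fb07_lc: what the instructions do, 1
-/

set_option autoImplicit false

namespace Pool.Agent.H88.CH

open Classical Pool.Agent.H46.CH
open Pool.Agent.H8.VR (C2)
open Pool.Agent.H8.JS (NTM Cfg Mv IsComp lang num)

theorem rel_true {J : Type} [Fintype J] (M : AM J) (e : M.I) (v v' : J → ℕ)
    (h : M.dir e = true) : M.Rel e v v' ↔ ∀ j, v' j = M.c e j + ∑ k, M.A e j k * v k := by
  unfold AM.Rel
  rw [if_pos h]

theorem rel_false {J : Type} [Fintype J] (M : AM J) (e : M.I) (v v' : J → ℕ)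
    (h : M.dir e = false) : M.Rel e v v' ↔ ∀ j, v j = M.c e j + ∑ k, M.A e j k * v' k := by
  unfold AM.Rel
  rw [if_neg (by rw [h]; simp)]

theorem tm_true (M : NTM) (B : ℕ) (cd : TS M → ℕ) (d : ℕ) (e : Ins M d) (v v' : Ct M.k d → ℕ)
    (h : e.dir = true) : (tmA M B cd d).Rel e v v' ↔
      ∀ j, v' j = Ins.c B cd e j + ∑ k, Ins.A B e j k * v k :=
  rel_true (tmA M B cd d) e v v' h

theorem tm_false (M : NTM) (B : ℕ) (cd : TS M → ℕ) (d : ℕ) (e : Ins M d) (v v' : Ct M.k d → ℕ)
    (h : e.dir = false) : (tmA M B cd d).Rel e v v' ↔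
      ∀ j, v j = Ins.c B cd e j + ∑ k, Ins.A B e j k * v' k :=
  rel_false (tmA M B cd d) e v v' h

theorem pf_IR : T_IR := by
  intro M B cd d v v'
  refine ⟨?_, ?_, ?_, ?_, ?_, ?_, ?_, ?_⟩
  · refine (tm_true M B cd d _ v v' rfl).trans ?_
    rw [forall_ct, forall_ct]
    simp [Ins.c, Ins.A, dl]
  · intro b
    refine (tm_true M B cd d _ v v' rfl).trans ?_
    rw [forall_ct]
    simp only [Ins.c, Ins.A, sum_dl, sum_mdl, sum_add, zero_add]
    have hrt : (∀ j : Fin (M.k + 1), v' (.rt j) =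
        (if j = 0 then cd (.bit b) else 0) + (if j = 0 then B else 1) * v (.rt j)) ↔
        v' (.rt 0) = cd (.bit b) + B * v (.rt 0) ∧ ∀ j ≠ 0, v' (.rt j) = v (.rt j) := by
      constructor
      · intro h
        exact ⟨by simpa using h 0, fun j hj => by simpa [hj] using h j⟩
      · rintro ⟨h0, h⟩ j
        by_cases hj : j = 0
        · subst hj
          simpa using h0
        · simpa [hj] using h j hj
    rw [hrt]
    tauto
  · refine (tm_true M B cd d _ v v' rfl).trans ?_
    rw [forall_ct, forall_ct]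
    simp only [Ins.c, Ins.A, sum_dl, sum_add, sum_zero, zero_add]
    simp
    tauto
  · refine (tm_true M B cd d _ v v' rfl).trans ?_
    rw [forall_ct, forall_ct]
    simp only [Ins.c, Ins.A, sum_dla, zero_add]
    simp
  · refine (tm_false M B cd d _ v v' rfl).trans ?_
    rw [forall_ct, forall_ct]
    simp only [Ins.c, Ins.A, sum_dla, zero_add]
    simp
    tauto
  · refine (tm_true M B cd d _ v v' rfl).trans ?_
    rw [forall_ct, forall_ct]
    simp only [Ins.c, Ins.A, sum_dl, sum_zero, zero_add]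
  · refine (tm_false M B cd d _ v v' rfl).trans ?_
    rw [forall_ct, forall_ct]
    simp only [Ins.c, Ins.A, sum_dl, sum_add, sum_w', zero_add]
    simp
    tauto
  · refine (tm_true M B cd d _ v v' rfl).trans ?_
    simp only [Ins.c, Ins.A, sum_zero, zero_add]

end Pool.Agent.H88.CH
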