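import Pool.Agent.H88.CHS.IR

/-!
# MP_64fb07_lc: what the instructions do, 2
-/

set_option autoImplicit false

namespace Pool.Agent.H88.CH

open Classical Pool.Agent.H46.CH
open Pool.Agent.H8.VR (C2)
open Pool.Agent.H8.JS (NTM Cfg Mv IsComp lang num)

/-- the order of the counters in `forall_ct` is `lf, rt, N, P, Z, D, u, w` -/
theorem reo1 {a1 a2 a3 a4 a5 a6 a7 a8 b1 b2 b3 b4 b5 b6 b7 b8 : Prop}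
    (h1 : a1 ↔ b1) (h2 : a2 ↔ b2) (h3 : a3 ↔ b3) (h4 : a4 ↔ b4) (h5 : a5 ↔ b5) (h6 : a6 ↔ b6)
    (h7 : a7 ↔ b7) (h8 : a8 ↔ b8) : (a1 ∧ a2 ∧ a3 ∧ a4 ∧ a5 ∧ a6 ∧ a7 ∧ a8) ↔
      (b2 ∧ b1 ∧ b5 ∧ b3 ∧ b4 ∧ b6 ∧ b7 ∧ b8) :=
  ⟨fun ⟨x1, x2, x3, x4, x5, x6, x7, x8⟩ =>
    ⟨h2.1 x2, h1.1 x1, h5.1 x5, h3.1 x3, h4.1 x4, h6.1 x6, h7.1 x7, h8.1 x8⟩,
  fun ⟨x2, x1, x5, x3, x4, x6, x7, x8⟩ =>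
    ⟨h1.2 x1, h2.2 x2, h3.2 x3, h4.2 x4, h5.2 x5, h6.2 x6, h7.2 x7, h8.2 x8⟩⟩

theorem reo2 {a1 a2 a3 a4 a5 a6 a7 a8 b1 b2 b3 b4 b5 b6 b7 b8 : Prop}
    (h1 : a1 ↔ b1) (h2 : a2 ↔ b2) (h3 : a3 ↔ b3) (h4 : a4 ↔ b4) (h5 : a5 ↔ b5) (h6 : a6 ↔ b6)
    (h7 : a7 ↔ b7) (h8 : a8 ↔ b8) : (a1 ∧ a2 ∧ a3 ∧ a4 ∧ a5 ∧ a6 ∧ a7 ∧ a8) ↔
      (b1 ∧ b2 ∧ b5 ∧ b3 ∧ b4 ∧ b6 ∧ b7 ∧ b8) :=
  ⟨fun ⟨x1, x2, x3, x4, x5, x6, x7, x8⟩ =>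
    ⟨h1.1 x1, h2.1 x2, h5.1 x5, h3.1 x3, h4.1 x4, h6.1 x6, h7.1 x7, h8.1 x8⟩,
  fun ⟨x1, x2, x5, x3, x4, x6, x7, x8⟩ =>
    ⟨h1.2 x1, h2.2 x2, h3.2 x3, h4.2 x4, h5.2 x5, h6.2 x6, h7.2 x7, h8.2 x8⟩⟩

theorem reo3 {a1 a2 a3 a4 a5 a6 a7 a8 b1 b2 b3 b4 b5 b6 b7 b8 : Prop}
    (h1 : a1 ↔ b1) (h2 : a2 ↔ b2) (h3 : a3 ↔ b3) (h4 : a4 ↔ b4) (h5 : a5 ↔ b5) (h6 : a6 ↔ b6)
    (h7 : a7 ↔ b7) (h8 : a8 ↔ b8) : (a1 ∧ a2 ∧ a3 ∧ a4 ∧ a5 ∧ a6 ∧ a7 ∧ a8) ↔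
      (b8 ∧ b5 ∧ b7 ∧ b3 ∧ b4 ∧ b6 ∧ b1 ∧ b2) :=
  ⟨fun ⟨x1, x2, x3, x4, x5, x6, x7, x8⟩ =>
    ⟨h8.1 x8, h5.1 x5, h7.1 x7, h3.1 x3, h4.1 x4, h6.1 x6, h1.1 x1, h2.1 x2⟩,
  fun ⟨x8, x5, x7, x3, x4, x6, x1, x2⟩ =>
    ⟨h1.2 x1, h2.2 x2, h3.2 x3, h4.2 x4, h5.2 x5, h6.2 x6, h7.2 x7, h8.2 x8⟩⟩

theorem reo4 {a1 a2 a3 a4 a5 a6 a7 a8 b1 b2 b3 b4 b5 b6 b7 b8 : Prop}
    (h1 : a1 ↔ b1) (h2 : a2 ↔ b2) (h3 : a3 ↔ b3) (h4 : a4 ↔ b4) (h5 : a5 ↔ b5) (h6 : a6 ↔ b6)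
    (h7 : a7 ↔ b7) (h8 : a8 ↔ b8) : (a1 ∧ a2 ∧ a3 ∧ a4 ∧ a5 ∧ a6 ∧ a7 ∧ a8) ↔
      (b7 ∧ b8 ∧ b5 ∧ b3 ∧ b4 ∧ b6 ∧ b1 ∧ b2) :=
  ⟨fun ⟨x1, x2, x3, x4, x5, x6, x7, x8⟩ =>
    ⟨h7.1 x7, h8.1 x8, h5.1 x5, h3.1 x3, h4.1 x4, h6.1 x6, h1.1 x1, h2.1 x2⟩,
  fun ⟨x7, x8, x5, x3, x4, x6, x1, x2⟩ =>
    ⟨h1.2 x1, h2.2 x2, h3.2 x3, h4.2 x4, h5.2 x5, h6.2 x6, h7.2 x7, h8.2 x8⟩⟩

theorem pf_IS : T_IS := by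
  intro M B cd d v v'
  refine ⟨?_, ?_, ?_, ?_⟩
  · intro τ
    refine (tm_false M B cd d _ v v' rfl).trans ?_
    rw [forall_ct]
    simp only [Ins.c, Ins.A, sum_dl, sum_mdl, sum_add, sum_lf, zero_add]
    refine reo1 (forall_congr' fun j => ?_) Iff.rfl Iff.rfl Iff.rfl ?_ Iff.rfl Iff.rfl Iff.rfl
    · rcases h : τ.2.2.2.2.2 j with _ | t <;> simp
    · refine Iff.of_eq (congrArg (fun z => v .Z = v' .Z + z) ?_)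
      exact Finset.sum_congr rfl fun j _ => by
        by_cases h : τ.2.2.2.2.1 j = Mv.L ∧ τ.2.2.2.2.2 j = none <;> simp [h]
  · intro τ
    refine (tm_true M B cd d _ v v' rfl).trans ?_
    rw [forall_ct]
    simp only [Ins.c, Ins.A, sum_dl, sum_mdl, zero_add]
    refine reo2 (forall_congr' fun j => ?_) (forall_congr' fun j => ?_) Iff.rfl Iff.rfl Iff.rfl
      Iff.rfl Iff.rfl Iff.rfl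
    · by_cases h : τ.2.2.2.2.1 j = Mv.R <;> simp [h]
    · by_cases h : τ.2.2.2.2.1 j = Mv.R
      · simp [h]
      · rcases h' : τ.2.2.2.2.2 j with _ | t <;> simp [h]
  · intro i
    refine (tm_false M B cd d _ v v' rfl).trans ?_
    rw [forall_ct]
    simp only [Ins.c, Ins.A, sum_dl, sum_add, sum_w, zero_add]
    refine reo3 Iff.rfl Iff.rfl Iff.rfl Iff.rfl ?_ Iff.rfl Iff.rfl (forall_congr' fun l => ?_)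
    · refine Iff.of_eq (congrArg (fun z => v .Z = v' .Z + z) ?_)
      exact Finset.sum_congr rfl fun l _ => by by_cases h : l < i <;> simp [h]
    · by_cases h : l = i <;> simp [h, dl, add_comm]
  · intro i
    refine (tm_true M B cd d _ v v' rfl).trans ?_
    rw [forall_ct]
    simp only [Ins.c, Ins.A, sum_dl, sum_add, sum_dlb, zero_add]
    refine reo4 Iff.rfl Iff.rfl Iff.rfl Iff.rfl Iff.rfl Iff.rfl (forall_congr' fun l => ?_)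
      (forall_congr' fun l => ?_)
    · by_cases h : l = i
      · subst h
        simp [dl, add_comm]
      · by_cases h' : l < i
        · simp [h', not_le.mpr h', h]
        · simp [h, h', not_lt.mp h', dl]
    · by_cases h : l < i <;> simp [h]

end Pool.Agent.H88.CH
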