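import Pool.Agent.H88.CHS.Base

/-!
# MP_64fb07_lc: a word is loaded
-/

set_option autoImplicit false

namespace Pool.Agent.H88.CH

open Classical Pool.Agent.H46.CH
open Pool.Agent.H8.VR (C2)
open Pool.Agent.H8.JS (NTM Cfg Mv IsComp lang num)

/-- the value of a word -/
def nv : List Bool → ℕ
  | [] => 0
  | b :: y => nv y + b.toNat * 2 ^ y.length

/-- the code of a word -/
def rv {M : NTM} (B : ℕ) (cd : TS M → ℕ) : List Bool → ℕ
  | [] => 0
  | b :: y => cd (.bit b) + B * rv B cd y

theorem foldl_num (y : List Bool) (a : ℕ) :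
    y.foldl (fun n b => 2 * n + b.toNat) a = a * 2 ^ y.length + nv y := by
  induction y generalizing a with
  | nil => simp [nv]
  | cons b y ih =>
    rw [List.foldl_cons, ih, nv, List.length_cons, pow_succ]
    ring

theorem num_eq (y : List Bool) : num y = 2 ^ y.length + nv y := by
  unfold num
  rw [foldl_num, one_mul]

/-- the vector of a word while it is loaded -/
def wv {M : NTM} (B : ℕ) (cd : TS M → ℕ) (d : ℕ) (y : List Bool) : Ct M.k d → ℕ
  | .P => 2 ^ y.length
  | .N => nv y
  | .rt j => if j = 0 then rv B cd y else 0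
  | _ => 0

theorem sum_wv {M : NTM} (B : ℕ) (cd : TS M → ℕ) (d : ℕ) (y : List Bool) :
    ∑ j, wv B cd d y j = num y + rv B cd y := by
  rw [sum_ct, num_eq]
  simp only [wv, Finset.sum_const_zero, zero_add, add_zero]
  rw [Finset.sum_ite_eq' Finset.univ (0 : Fin (M.k + 1)) (fun _ => rv B cd y)]
  simp only [Finset.mem_univ, if_true]
  ring

theorem rv_lt {M : NTM} {B : ℕ} {cd : TS M → ℕ} (hC : Code M B cd) (y : List Bool) :
    rv B cd y + 1 ≤ B ^ y.length := by
  induction y with
  | nil => simp [rv]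
  | cons b y ih =>
    rw [rv, List.length_cons, pow_succ, mul_comm _ B]
    have h1 := hC.lt (.bit b)
    have h2 : B * (rv B cd y + 1) ≤ B * B ^ y.length := Nat.mul_le_mul_left _ ih
    rw [mul_add, mul_one] at h2
    omega

/-- the symbol at the position `i` of the word -/
def sy {M : NTM} (x : List Bool) (i : ℕ) : TS M := match x[i]? with
  | some b => .bit b
  | none => .bl

theorem cod_rv (hCO : T_CO) {M : NTM} {B : ℕ} {cd : TS M → ℕ} (hC : Code M B cd)
    (x : List Bool) : Cod B cd (sy x) (rv B cd x) := by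
  induction x with
  | nil => exact ⟨0, fun i _ => by simp [sy], by simp [rv]⟩
  | cons b x ih =>
    rw [(hCO M B cd hC).2.1]
    refine ⟨rv B cd x, rfl, ?_⟩
    have h : (fun i => (sy (b :: x) (i + 1) : TS M)) = sy x := by
      funext i
      simp [sy]
    rw [h]
    exact ih

theorem rel_start (hIR : T_IR) (M : NTM) (B : ℕ) (cd : TS M → ℕ) (d : ℕ)
    (v v' : Ct M.k d → ℕ) : (tmA M B cd d).Rel .start v v' ↔ v' = wv B cd d [] := by
  rw [(hIR M B cd d v v').1]
  constructor
  · intro h
    funext j
    rw [h j]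
    cases j <;> simp [wv, dl, rv, nv]
  · rintro rfl j
    cases j <;> simp [wv, dl, rv, nv]

theorem rel_load (hIR : T_IR) (M : NTM) (B : ℕ) (cd : TS M → ℕ) (d : ℕ) (b : Bool)
    (y : List Bool) (v' : Ct M.k d → ℕ) :
    (tmA M B cd d).Rel (.load b) (wv B cd d y) v' ↔ v' = wv B cd d (b :: y) := by
  rw [(hIR M B cd d _ v').2.1 b]
  constructor
  · rintro ⟨h1, h2, h3, h4, h5, h6, h7, h8, h9⟩
    funext j
    cases j with
    | lf j => rw [h5]; rfl
    | rt j =>
      by_cases hj : j = 0
      · subst hj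
        rw [h3]
        simp [wv, rv]
      · rw [h4 j hj]
        simp [wv, hj]
    | N => rw [h2]; rfl
    | P => rw [h1]; simp [wv, pow_succ, mul_comm]
    | Z => rw [h6]; rfl
    | D => rw [h7]; rfl
    | u i => rw [h8]; rfl
    | w i => rw [h9]; rfl
  · rintro rfl
    refine ⟨by simp [wv, pow_succ, mul_comm], rfl, by simp [wv, rv], fun j hj => by simp [wv, hj],
      fun _ => rfl, rfl, rfl, fun _ => rfl, fun _ => rfl⟩

/-- the last instruction of the loading -/
theorem rel_endl (hCO : T_CO) (hIR : T_IR) (M : NTM) (B : ℕ) (cd : TS M → ℕ) (d : ℕ)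
    (hC : Code M B cd) (x : List Bool) (v : Ct M.k d → ℕ) :
    (tmA M B cd d).Rel .endl (wv B cd d x) v ↔ VC B cd (num x) (Pool.Agent.H8.JS.init M x) v := by
  rw [(hIR M B cd d _ v).2.2.1]
  have hx := cod_rv hCO hC x
  have h0 : Cod B cd (fun _ => (.bl : TS M)) 0 := ⟨0, fun _ _ => rfl, by simp⟩
  have e0 : (fun i => (Pool.Agent.H8.JS.init M x).tp 0
      ((Pool.Agent.H8.JS.init M x).hd 0 + i)) = sy x := by
    funext i
    simp only [Pool.Agent.H8.JS.init, sy, if_true, zero_add]
    rcases x[i]? with _ | b <;> rfl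
  have e1 : ∀ j : Fin (M.k + 1), j ≠ 0 → (fun i => (Pool.Agent.H8.JS.init M x).tp j
      ((Pool.Agent.H8.JS.init M x).hd j + i)) = fun _ => (.bl : TS M) := by
    intro j hj
    funext i
    simp [Pool.Agent.H8.JS.init, hj]
  constructor
  · rintro ⟨h1, h2, h3⟩
    refine ⟨fun j => ?_, fun j => ?_, ?_, h1, ?_, ?_, fun i => ?_, fun i => ?_⟩
    · rw [h3 _ (by simp) (by simp)]
      simp [wv, Pool.Agent.H8.JS.init]
    · rw [h3 _ (by simp) (by simp)]
      by_cases hj : j = 0
      · subst hj
        rw [e0]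
        simpa [wv] using hx
      · rw [e1 j hj]
        simpa [wv, hj] using h0
    · rw [h2, num_eq]
      simp only [wv]
      ring
    · rw [h3 _ (by simp) (by simp)]
      rfl
    · rw [h3 _ (by simp) (by simp)]
      rfl
    · rw [h3 _ (by simp) (by simp)]
      rfl
    · rw [h3 _ (by simp) (by simp)]
      rfl
  · rintro ⟨h1, h2, h3, h4, h5, h6, h7, h8⟩
    refine ⟨h4, ?_, fun j hP hN => ?_⟩
    · rw [h3, num_eq]
      simp only [wv]
      ring
    · cases j with
      | lf j => rw [h1]; simp [wv, Pool.Agent.H8.JS.init]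
      | rt j =>
        by_cases hj : j = 0
        · subst hj
          have h := h2 0
          rw [e0] at h
          rw [(hCO M B cd hC).1 _ _ _ h hx]
          simp [wv]
        · have h := h2 j
          rw [e1 j hj] at h
          rw [(hCO M B cd hC).1 _ _ _ h h0]
          simp [wv, hj]
      | N => exact absurd rfl hN
      | P => exact absurd rfl hP
      | Z => rw [h5]; rfl
      | D => rw [h6]; rfl
      | u i => rw [h7]; rfl
      | w i => rw [h8]; rfl

theorem path_load (hIR : T_IR) (M : NTM) (B : ℕ) (cd : TS M → ℕ) (d : ℕ) (hC : Code M B cd)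
    (y : List Bool) (e : Ins M d) (he : e = .endl ∨ ∃ b, e = .load b) :
    ∃ s, (tmA M B cd d).Path .start (fun _ => 0) e (wv B cd d y) s ∧
      s ≤ (y.length + 1) * (1 + num y + B ^ y.length) := by
  induction y generalizing e with
  | nil =>
    refine ⟨0 + (1 + ∑ j : Ct M.k d, 0), ?_, ?_⟩
    · refine AM.Path.snoc _ _ _ _ _ _ _ (AM.Path.nil _ _)
        ((rel_start hIR M B cd d _ _).mpr rfl) ?_
      rcases he with rfl | ⟨b, rfl⟩
      · exact trivial
      · exact trivial
    · simp
  | cons b y ih =>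
    obtain ⟨s, h1, h2⟩ := ih (.load b) (Or.inr ⟨b, rfl⟩)
    refine ⟨_, AM.Path.snoc _ _ _ _ _ _ _ h1 ((rel_load hIR M B cd d b y _).mpr rfl) ?_, ?_⟩
    · rcases he with rfl | ⟨b', rfl⟩
      · exact trivial
      · exact trivial
    · rw [sum_wv]
      have h3 := rv_lt hC y
      have h4 : num y ≤ num (b :: y) := by
        rw [num_eq, num_eq, nv, List.length_cons, pow_succ]
        have := Nat.zero_le (b.toNat * 2 ^ y.length)
        have : 0 < 2 ^ y.length := by positivity
        omega
      have hB : 1 ≤ B := by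
        have := hC.lt .bl
        omega
      have h5 : B ^ y.length ≤ B ^ (b :: y).length :=
        Nat.pow_le_pow_right hB (by simp)
      have h6 : (y.length + 2) * (1 + num y + B ^ y.length) ≤
          ((b :: y).length + 1) * (1 + num (b :: y) + B ^ (b :: y).length) :=
        Nat.mul_le_mul (by simp) (by omega)
      refine le_trans ?_ h6
      have h7 : (y.length + 2) * (1 + num y + B ^ y.length) =
        (y.length + 1) * (1 + num y + B ^ y.length) + (1 + num y + B ^ y.length) := by ring
      rw [h7]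
      omega

theorem pf_LD (hCO : T_CO) (hIR : T_IR) : T_LD := by
  intro M B cd d hC x v hv
  obtain ⟨s, h1, h2⟩ := path_load hIR M B cd d hC x .endl (Or.inl rfl)
  refine ⟨_, s, h1, (rel_endl hCO hIR M B cd d hC x v).mpr hv, ?_⟩
  rw [sum_wv]
  have h3 := rv_lt hC x
  have hB : 1 ≤ B := by
    have := hC.lt .bl
    omega
  have h5 : B ^ x.length ≤ B ^ (x.length + 1) := Nat.pow_le_pow_right hB (by omega)
  have h6 : (x.length + 2) * (1 + num x + B ^ x.length) ≤
      (x.length + 3) * (1 + 2 * num x + B ^ (x.length + 1)) :=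
    Nat.mul_le_mul (by omega) (by omega)
  refine le_trans ?_ h6
  have h7 : (x.length + 2) * (1 + num x + B ^ x.length) =
    (x.length + 1) * (1 + num x + B ^ x.length) + (1 + num x + B ^ x.length) := by ring
  rw [h7]
  omega

end Pool.Agent.H88.CH
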