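import Pool.Agent.H88.CHS.LD

/-!
# MP_64fb07_lc: only words are loaded
-/

set_option autoImplicit false

namespace Pool.Agent.H88.CH

open Classical Pool.Agent.H46.CH
open Pool.Agent.H8.VR (C2)
open Pool.Agent.H8.JS (NTM Cfg Mv IsComp lang num)

theorem path_ind {J : Type} [Fintype J] (M : AM J) (e : M.I) (v : J → ℕ)
    (p : M.I → (J → ℕ) → Prop) (h0 : p e v)
    (hs : ∀ e₁ v₁ e₂ v₂, p e₁ v₁ → M.Rel e₁ v₁ v₂ → M.nx e₁ e₂ → p e₂ v₂) (e' : M.I)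
    (v' : J → ℕ) (s : ℕ) (h : M.Path e v e' v' s) : p e' v' := by
  induction h with
  | nil => exact h0
  | snoc e₁ v₁ e₂ v₂ s h hr hn ih => exact hs _ _ _ _ ih hr hn

theorem pf_LE (hCO : T_CO) (hIR : T_IR) : T_LE := by
  intro M B cd d hC v₁ v s h hr
  have key := path_ind (tmA M B cd d) .start (fun _ => 0)
    (fun (e' : Ins M d) v' => (e' = .endl ∨ ∃ b, e' = .load b) →
      ∃ x : List Bool, v' = wv B cd d x) ?_ ?_ .endl v₁ s h (Or.inl rfl)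
  · obtain ⟨x, rfl⟩ := key
    exact ⟨x, (rel_endl hCO hIR M B cd d hC x v).mp hr⟩
  · rintro (h' | ⟨b, h'⟩)
    · exact absurd h' (by simp)
    · exact absurd h' (by simp)
  · intro (e₁ : Ins M d) v₁ (e₂ : Ins M d) v₂ ih hr hn h'
    have h1 : e₁ = (.start : Ins M d) ∨ ∃ b, e₁ = (.load b : Ins M d) := by
      change Ins.nx e₁ e₂ at hn
      rcases h' with h' | ⟨b, h'⟩ <;> subst h' <;> cases e₁ <;> simp [Ins.nx] at hn ⊢
    rcases h1 with rfl | ⟨b, rfl⟩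
    · exact ⟨[], (rel_start hIR M B cd d _ _).mp hr⟩
    · obtain ⟨x, rfl⟩ := ih (Or.inr ⟨b, rfl⟩)
      exact ⟨b :: x, (rel_load hIR M B cd d b x _).mp hr⟩

end Pool.Agent.H88.CH
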