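import Pool.Agent.H88.CHS.Base

/-!
# MP_64fb07_lc: the size of the vectors
-/

set_option autoImplicit false

namespace Pool.Agent.H88.CH

open Classical Pool.Agent.H46.CH
open Pool.Agent.H8.VR (C2)
open Pool.Agent.H8.JS (NTM Cfg Mv IsComp lang num)

theorem digits_lt {B : ℕ} (n : ℕ) (a : ℕ → ℕ) (ha : ∀ i, a i + 1 ≤ B) :
    (∑ i ∈ Finset.range n, a i * B ^ i) + 1 ≤ B ^ n := by
  induction n with
  | zero => simp
  | succ n ih =>
    rw [Finset.sum_range_succ, pow_succ]
    have h := Nat.mul_le_mul_right (B ^ n) (ha n)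
    rw [add_mul, one_mul, mul_comm B] at h
    omega

theorem two_pow_le_num (x : List Bool) : 2 ^ x.length ≤ num x := by
  have h : ∀ (y : List Bool) (a : ℕ), a * 2 ^ y.length ≤
      y.foldl (fun n b => 2 * n + b.toNat) a := by
    intro y
    induction y with
    | nil => intro a; simp
    | cons b y ih =>
      intro a
      rw [List.foldl_cons, List.length_cons, pow_succ]
      refine le_trans ?_ (ih _)
      rw [add_mul]
      have : a * (2 ^ y.length * 2) = 2 * a * 2 ^ y.length := by ring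
      omega
  have := h x 1
  rw [one_mul] at this
  exact this

/-- the cells from `s` on are blank in all configurations of a computation in space `s` -/
theorem blank_inv (M : NTM) (x : List Bool) (s : ℕ) (hs : x.length ≤ s) (hS : Space M x s)
    (l : ℕ) (cc : ℕ → Cfg M) (h : IsComp M (Pool.Agent.H8.JS.init M x) l cc) :
    ∀ i ≤ l, (∀ j, (cc i).hd j < s) ∧ ∀ j, ∀ p ≥ s, (cc i).tp j p = .bl := by
  intro i
  induction i with
  | zero =>
    intro _
    refine ⟨hS 0 cc ⟨h.1, fun i hi => absurd hi (by omega)⟩, fun j p hp => ?_⟩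
    rw [h.1]
    simp only [Pool.Agent.H8.JS.init]
    by_cases hj : j = 0
    · rw [if_pos hj, List.getElem?_eq_none (by omega)]
    · rw [if_neg hj]
  | succ i ih =>
    intro hi
    obtain ⟨h1, h2⟩ := ih (by omega)
    refine ⟨hS (i + 1) cc ⟨h.1, fun i' hi' => h.2 i' (by omega)⟩, fun j p hp => ?_⟩
    obtain ⟨a', d, _, _, h3⟩ := h.2 i (by omega)
    rw [h3 j p, if_neg (by have := h1 j; omega)]
    exact h2 j p hp

/-- the vector of a configuration -/
noncomputable def cv {M : NTM} (B : ℕ) (cd : TS M → ℕ) (d n s : ℕ) (c : Cfg M) : Ct M.k d → ℕ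
  | .lf j => ∑ i ∈ Finset.range (c.hd j), (cd (c.tp j (c.hd j - 1 - i)) + 1) * B ^ i
  | .rt j => ∑ i ∈ Finset.range s, cd (c.tp j (c.hd j + i)) * B ^ i
  | .N => n
  | _ => 0

theorem pf_VS (_hCO : T_CO) : T_VS := by
  intro M c B cd hC hS
  have hB : 1 ≤ B := by
    have := hC.lt .bl
    omega
  refine ⟨M.k + 2 * (c * B) + 4, ?_⟩
  intro d x l cc hcc i hi
  have hc : 0 < c := by
    have h1 := hS x 0 (fun _ => Pool.Agent.H8.JS.init M x) ⟨rfl, fun i hi => absurd hi (by omega)⟩ 0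
    rcases Nat.eq_zero_or_pos c with h | h
    · rw [h, zero_mul] at h1
      omega
    · exact h
  have hs : x.length ≤ c * (x.length + 1) := by
    have := Nat.mul_le_mul_right (x.length + 1) (show 1 ≤ c from hc)
    omega
  obtain ⟨h1, h2⟩ := blank_inv M x _ hs (hS x) l cc hcc i hi
  set s := c * (x.length + 1) with hsdef
  refine ⟨cv B cd d (num x) s (cc i), ⟨fun j => rfl, fun j => ⟨s, fun i' hi' => h2 j _ (by omega),
    rfl⟩, rfl, rfl, rfl, rfl, fun _ => rfl, fun _ => rfl⟩, ?_⟩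
  have hl : ∀ j, cv B cd d (num x) s (cc i) (.lf j) ≤ B ^ s := by
    intro j
    have h3 := digits_lt (B := B) ((cc i).hd j)
      (fun i' => cd ((cc i).tp j ((cc i).hd j - 1 - i')) + 1) (fun i' => hC.lt _)
    have h4 : B ^ (cc i).hd j ≤ B ^ s := Nat.pow_le_pow_right hB (h1 j).le
    simp only [cv]
    omega
  have hr : ∀ j, cv B cd d (num x) s (cc i) (.rt j) ≤ B ^ s := by
    intro j
    have h3 := digits_lt (B := B) s (fun i' => cd ((cc i).tp j ((cc i).hd j + i')))
      (fun i' => (hC.lt _).le)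
    simp only [cv]
    omega
  have hsum : 1 + ∑ j, cv B cd d (num x) s (cc i) j ≤ (num x + 1) + 2 * (M.k + 1) * B ^ s := by
    rw [sum_ct]
    have h3 : ∑ j, cv B cd d (num x) s (cc i) (.lf j) ≤ (M.k + 1) * B ^ s := by
      refine (Finset.sum_le_card_nsmul _ _ _ (fun j _ => hl j)).trans ?_
      simp
    have h4 : ∑ j, cv B cd d (num x) s (cc i) (.rt j) ≤ (M.k + 1) * B ^ s := by
      refine (Finset.sum_le_card_nsmul _ _ _ (fun j _ => hr j)).trans ?_
      simp
    have h5 : ∑ j : Fin d, cv B cd d (num x) s (cc i) (.u j) = 0 :=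
      Finset.sum_eq_zero (fun _ _ => rfl)
    have h6 : ∑ j : Fin d, cv B cd d (num x) s (cc i) (.w j) = 0 :=
      Finset.sum_eq_zero (fun _ _ => rfl)
    rw [h5, h6]
    have h7 : cv B cd d (num x) s (cc i) .N = num x := rfl
    have h8 : cv B cd d (num x) s (cc i) .P = 0 := rfl
    have h9 : cv B cd d (num x) s (cc i) .Z = 0 := rfl
    have h10 : cv B cd d (num x) s (cc i) .D = 0 := rfl
    rw [h7, h8, h9, h10]
    have h11 : 2 * (M.k + 1) * B ^ s = (M.k + 1) * B ^ s + (M.k + 1) * B ^ s := by ring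
    omega
  refine hsum.trans ?_
  have hn := two_pow_le_num x
  have hn1 : 1 ≤ num x := le_trans Nat.one_le_two_pow hn
  set N := num x + 1 with hN
  have hN2 : 2 ≤ N := by omega
  have hBs : B ^ s ≤ N ^ (2 * (c * B)) := by
    have h3 : B ≤ 2 ^ B := Nat.lt_two_pow_self.le
    have h4 : B ^ s ≤ 2 ^ (B * s) :=
      (Nat.pow_le_pow_left h3 s).trans (pow_mul 2 B s).ge
    have h5 : 2 ^ (B * s) = (2 ^ (x.length + 1)) ^ (c * B) := by
      rw [← pow_mul, hsdef]
      congr 1
      ring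
    have h6 : 2 ^ (x.length + 1) ≤ N ^ 2 := by
      rw [pow_succ, hN]
      have : (num x + 1) ^ 2 = num x * num x + 2 * num x + 1 := by ring
      rw [this]
      have := Nat.zero_le (num x * num x)
      omega
    calc B ^ s ≤ 2 ^ (B * s) := h4
      _ = (2 ^ (x.length + 1)) ^ (c * B) := h5
      _ ≤ (N ^ 2) ^ (c * B) := Nat.pow_le_pow_left h6 _
      _ = N ^ (2 * (c * B)) := by rw [← pow_mul]
  have h3 : 2 * (M.k + 1) ≤ N ^ (M.k + 2) := by
    have h4 : M.k + 1 ≤ 2 ^ (M.k + 1) := Nat.lt_two_pow_self.le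
    calc 2 * (M.k + 1) ≤ 2 * 2 ^ (M.k + 1) := Nat.mul_le_mul_left _ h4
      _ = 2 ^ (M.k + 2) := by ring
      _ ≤ N ^ (M.k + 2) := Nat.pow_le_pow_left hN2 _
  have h5 : 2 * (M.k + 1) * B ^ s ≤ N ^ (M.k + 2 * (c * B) + 3) := by
    calc 2 * (M.k + 1) * B ^ s ≤ N ^ (M.k + 2) * N ^ (2 * (c * B)) := Nat.mul_le_mul h3 hBs
      _ = N ^ (M.k + 2 + 2 * (c * B)) := by rw [← pow_add]
      _ ≤ N ^ (M.k + 2 * (c * B) + 3) := Nat.pow_le_pow_right (by omega) (by omega)
  have h6 : N ≤ N ^ (M.k + 2 * (c * B) + 3) := by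
    calc N = N ^ 1 := (pow_one N).symm
      _ ≤ N ^ (M.k + 2 * (c * B) + 3) := Nat.pow_le_pow_right (by omega) (by omega)
  calc N + 2 * (M.k + 1) * B ^ s ≤ 2 * N ^ (M.k + 2 * (c * B) + 3) := by omega
    _ ≤ N * N ^ (M.k + 2 * (c * B) + 3) := Nat.mul_le_mul_right _ hN2
    _ = N ^ (M.k + 2 * (c * B) + 4) := by rw [← pow_succ']

end Pool.Agent.H88.CH
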