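import Pool.Agent.H46.CH.LT

/-!
# MP_64fb07_lc: sums and quantifiers over the counters
-/

set_option autoImplicit false

namespace Pool.Agent.H88.CH

open Classical Pool.Agent.H46.CH
open Pool.Agent.H8.VR (C2)
open Pool.Agent.H8.JS (NTM Cfg Mv IsComp lang num)

theorem forall_ct {k d : ℕ} (p : Ct k d → Prop) :
    (∀ j, p j) ↔ (∀ j, p (.lf j)) ∧ (∀ j, p (.rt j)) ∧ p .N ∧ p .P ∧ p .Z ∧ p .D ∧
      (∀ i, p (.u i)) ∧ ∀ i, p (.w i) := by
  constructor
  · intro h
    exact ⟨fun j => h _, fun j => h _, h _, h _, h _, h _, fun j => h _, fun j => h _⟩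
  · rintro ⟨h1, h2, h3, h4, h5, h6, h7, h8⟩ j
    cases j
    · exact h1 _
    · exact h2 _
    · exact h3
    · exact h4
    · exact h5
    · exact h6
    · exact h7 _
    · exact h8 _

/-- the counters as a sum type -/
def ctE (k d : ℕ) : Ct k d ≃
    (Fin (k + 1) ⊕ (Fin (k + 1) ⊕ (Fin 4 ⊕ (Fin d ⊕ Fin d)))) where
  toFun j := match j with
    | .lf j => .inl j
    | .rt j => .inr (.inl j)
    | .N => .inr (.inr (.inl 0))
    | .P => .inr (.inr (.inl 1))
    | .Z => .inr (.inr (.inl 2))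
    | .D => .inr (.inr (.inl 3))
    | .u i => .inr (.inr (.inr (.inl i)))
    | .w i => .inr (.inr (.inr (.inr i)))
  invFun j := match j with
    | .inl j => .lf j
    | .inr (.inl j) => .rt j
    | .inr (.inr (.inl 0)) => .N
    | .inr (.inr (.inl 1)) => .P
    | .inr (.inr (.inl 2)) => .Z
    | .inr (.inr (.inl 3)) => .D
    | .inr (.inr (.inr (.inl i))) => .u i
    | .inr (.inr (.inr (.inr i))) => .w i
  left_inv j := by cases j <;> rfl
  right_inv j := by
    rcases j with j | j | j | j | j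
    · rfl
    · rfl
    · fin_cases j <;> rfl
    · rfl
    · rfl

theorem sum_ct {k d : ℕ} (f : Ct k d → ℕ) : ∑ j, f j =
    (∑ j, f (.lf j)) + ((∑ j, f (.rt j)) + ((f .N + f .P + f .Z + f .D) +
      ((∑ i, f (.u i)) + ∑ i, f (.w i)))) := by
  rw [Fintype.sum_equiv (ctE k d) f (fun x => f ((ctE k d).symm x)) (fun x => by simp)]
  rw [Fintype.sum_sum_type, Fintype.sum_sum_type, Fintype.sum_sum_type, Fintype.sum_sum_type,
    Fin.sum_univ_four]
  rfl

theorem dl_true {p : Prop} (h : p) : dl p = 1 := by simp [dl, h]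

theorem dl_false {p : Prop} (h : ¬ p) : dl p = 0 := by simp [dl, h]

theorem sum_dl {J : Type} [Fintype J] (c : J) (v : J → ℕ) : ∑ k, dl (k = c) * v k = v c := by
  rw [Finset.sum_eq_single c]
  · rw [dl_true rfl, one_mul]
  · intro b _ hb
    rw [dl_false hb, zero_mul]
  · intro h
    exact absurd (Finset.mem_univ c) h

theorem sum_mdl {J : Type} [Fintype J] (a : ℕ) (c : J) (v : J → ℕ) :
    ∑ k, a * dl (k = c) * v k = a * v c := by
  rw [← sum_dl c v, Finset.mul_sum]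
  exact Finset.sum_congr rfl fun k _ => by ring

theorem sum_add {J : Type} [Fintype J] (f g v : J → ℕ) :
    ∑ k, (f k + g k) * v k = (∑ k, f k * v k) + ∑ k, g k * v k := by
  rw [← Finset.sum_add_distrib]
  exact Finset.sum_congr rfl fun k _ => by ring

theorem sum_dla {J : Type} [Fintype J] (p : Prop) (c : J) (v : J → ℕ) :
    ∑ k, dl (p ∧ k = c) * v k = if p then v c else 0 := by
  by_cases h : p
  · simp only [h, true_and, if_true]
    exact sum_dl c v
  · simp only [h, false_and, if_false]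
    simp [dl]

theorem sum_dlb {J : Type} [Fintype J] (p : Prop) (c : J) (v : J → ℕ) :
    ∑ k, dl (k = c ∧ p) * v k = if p then v c else 0 := by
  rw [← sum_dla p c v]
  exact Finset.sum_congr rfl fun k _ => by rw [and_comm]

theorem sum_zero {J : Type} [Fintype J] (v : J → ℕ) : ∑ k : J, 0 * v k = 0 := by simp

theorem sum_lf {k d : ℕ} (q : Fin (k + 1) → Prop) (v : Ct k d → ℕ) :
    ∑ c, dl (∃ j, c = .lf j ∧ q j) * v c = ∑ j, if q j then v (.lf j) else 0 := by
  rw [sum_ct]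
  have h1 : ∀ j, dl (∃ i, (Ct.lf j : Ct k d) = .lf i ∧ q i) * v (.lf j) =
      if q j then v (.lf j) else 0 := by
    intro j
    by_cases h : q j
    · rw [dl_true ⟨j, rfl, h⟩, if_pos h, one_mul]
    · rw [dl_false, if_neg h, zero_mul]
      rintro ⟨i, hi, hq⟩
      exact h (by rw [Ct.lf.inj hi]; exact hq)
  have h2 : ∀ c : Ct k d, (∀ j, c ≠ .lf j) → dl (∃ i, c = .lf i ∧ q i) * v c = 0 := by
    intro c hc
    rw [dl_false, zero_mul]
    rintro ⟨i, hi, _⟩
    exact hc i hi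
  simp only [h1]
  rw [h2 .N (by simp), h2 .P (by simp), h2 .Z (by simp), h2 .D (by simp)]
  have e1 : ∑ j, dl (∃ i, (Ct.rt j : Ct k d) = .lf i ∧ q i) * v (.rt j) = 0 :=
    Finset.sum_eq_zero (fun j _ => h2 (.rt j) (by simp))
  have e2 : ∑ j, dl (∃ i, (Ct.u j : Ct k d) = .lf i ∧ q i) * v (.u j) = 0 :=
    Finset.sum_eq_zero (fun j _ => h2 (.u j) (by simp))
  have e3 : ∑ j, dl (∃ i, (Ct.w j : Ct k d) = .lf i ∧ q i) * v (.w j) = 0 :=
    Finset.sum_eq_zero (fun j _ => h2 (.w j) (by simp))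
  rw [e1, e2, e3]
  simp

theorem sum_w {k d : ℕ} (q : Fin d → Prop) (v : Ct k d → ℕ) :
    ∑ c, dl (∃ j, c = .w j ∧ q j) * v c = ∑ j, if q j then v (.w j) else 0 := by
  rw [sum_ct]
  have h1 : ∀ j, dl (∃ i, (Ct.w j : Ct k d) = .w i ∧ q i) * v (.w j) =
      if q j then v (.w j) else 0 := by
    intro j
    by_cases h : q j
    · rw [dl_true ⟨j, rfl, h⟩, if_pos h, one_mul]
    · rw [dl_false, if_neg h, zero_mul]
      rintro ⟨i, hi, hq⟩
      exact h (by rw [Ct.w.inj hi]; exact hq)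
  have h2 : ∀ c : Ct k d, (∀ j, c ≠ .w j) → dl (∃ i, c = .w i ∧ q i) * v c = 0 := by
    intro c hc
    rw [dl_false, zero_mul]
    rintro ⟨i, hi, _⟩
    exact hc i hi
  simp only [h1]
  rw [h2 .N (by simp), h2 .P (by simp), h2 .Z (by simp), h2 .D (by simp)]
  have e1 : ∑ j, dl (∃ i, (Ct.lf j : Ct k d) = .w i ∧ q i) * v (.lf j) = 0 :=
    Finset.sum_eq_zero (fun j _ => h2 (.lf j) (by simp))
  have e2 : ∑ j, dl (∃ i, (Ct.rt j : Ct k d) = .w i ∧ q i) * v (.rt j) = 0 :=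
    Finset.sum_eq_zero (fun j _ => h2 (.rt j) (by simp))
  have e3 : ∑ j, dl (∃ i, (Ct.u j : Ct k d) = .w i ∧ q i) * v (.u j) = 0 :=
    Finset.sum_eq_zero (fun j _ => h2 (.u j) (by simp))
  rw [e1, e2, e3]
  simp

theorem sum_w' {k d : ℕ} (v : Ct k d → ℕ) :
    ∑ c, dl (∃ j, c = .w j) * v c = ∑ j, v (.w j) := by
  have h := sum_w (fun _ => True) v
  simpa using h

end Pool.Agent.H88.CH
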